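import Pool.Agent.Zk64.Sh.Ex3

/-!
# The dimension `d ≥ 9`
-/

set_option autoImplicit false
set_option linter.all false

namespace Pool.Agent.Zk64.Sh

open Finset Pool.Agent.Zk64.Alt

variable {d n : ℕ}

/-- the word of a permutation of distinct letters -/
def qword (e : Fin (n + 1) → Fin d) (σ : Equiv.Perm (Fin (n + 1))) : FreeMagma (Fin d) :=
  lw (FreeMagma.of (e (σ 0))) ((List.finRange n).map fun i => e (σ i.succ))

lemma content_qword (e : Fin (n + 1) → Fin d) (σ : Equiv.Perm (Fin (n + 1))) :
    content (qword e σ) = ∑ i, Pi.single (e i) 1 := by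
  rw [qword, content_lw, List.map_map]
  have h : ((List.finRange n).map ((fun y => (Pi.single y 1 : Fin d → ℕ)) ∘
      fun i => e (σ i.succ))).sum = ∑ i : Fin n, (Pi.single (e (σ i.succ)) 1 : Fin d → ℕ) := by
    rw [← List.sum_ofFn, List.ofFn_eq_map]
    rfl
  rw [h]
  have h2 : content (FreeMagma.of (e (σ 0))) = (Pi.single (e (σ 0)) 1 : Fin d → ℕ) := rfl
  rw [h2, ← Fin.sum_univ_succ (fun i => (Pi.single (e (σ i)) 1 : Fin d → ℕ)),
    Equiv.sum_comp σ (fun i => (Pi.single (e i) 1 : Fin d → ℕ))]

lemma aw_qword_inj {e : Fin (n + 1) → Fin d} (he : Function.Injective e)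
    {σ τ : Equiv.Perm (Fin (n + 1))} (h : aw (qword e σ) = aw (qword e τ)) : σ = τ := by
  rw [qword, qword, aw_lw, aw_lw] at h
  have h1 : (e (σ 0) :: (List.finRange n).map fun i => e (σ i.succ)) =
      (e (τ 0) :: (List.finRange n).map fun i => e (τ i.succ)) := h
  rw [List.cons.injEq] at h1
  ext i
  refine Fin.cases ?_ (fun j => ?_) i
  · rw [he h1.1]
  · have h2 := List.map_inj_left.1 h1.2 j (List.mem_finRange j)
    rw [he h2]

theorem factorial_le_gen (k : Type*) [Field k] {e : Fin (n + 1) → Fin d}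
    (he : Function.Injective e) :
    (n + 1).factorial ≤ Module.finrank k (comp k (∑ i, Pi.single (e i) 1)) := by
  classical
  obtain ⟨F, hF⟩ := exists_assoc (d := d) k
  let v : Equiv.Perm (Fin (n + 1)) → comp k (∑ i, Pi.single (e i) 1) := fun σ =>
    ⟨FreeAlt.proj k (Fin d) (MonoidAlgebra.single (qword e σ) 1),
      Submodule.subset_span ⟨qword e σ, content_qword e σ, rfl⟩⟩
  have hv : LinearIndependent k v := by
    rw [Fintype.linearIndependent_iff]
    intro g hg τ
    have h1 := congrArg (fun z : comp k (∑ i, Pi.single (e i) 1) => F z.1) hg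
    simp only [Submodule.coe_sum, Submodule.coe_smul, map_sum, map_smul, Submodule.coe_zero,
      map_zero, v, hF] at h1
    have h2 := congrArg (fun z => MonoidAlgebra.coeff z (aw (qword e τ))) h1
    simp only [MonoidAlgebra.coeff_zero, Finsupp.coe_zero, Pi.zero_apply] at h2
    rw [MonoidAlgebra.coeff_sum, Finsupp.finset_sum_apply] at h2
    rw [Finset.sum_eq_single τ] at h2
    · simpa using h2
    · intro σ _ hσ
      rw [MonoidAlgebra.coeff_smul_apply, MonoidAlgebra.coeff_single, Finsupp.single_apply,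
        if_neg (fun h => hσ (aw_qword_inj he h)), smul_zero]
    · intro h
      exact absurd (mem_univ τ) h
  have h := hv.fintype_card_le_finrank
  rwa [Fintype.card_perm, Fintype.card_fin] at h

/-- the multidegree `(1, …, 1, 0, …, 0)`, nine ones -/
def nine (d : ℕ) : Fin d → ℕ := fun i => if i.val < 9 then 1 else 0

lemma nine_eq_sum (hd : 9 ≤ d) : nine d = ∑ i : Fin (8 + 1), Pi.single (Fin.castLE hd i) 1 := by
  classical
  funext j
  rw [Finset.sum_apply, nine]
  simp only [Pi.single_apply]
  by_cases h : j.val < 9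
  · rw [if_pos h, Finset.sum_eq_single (⟨j.val, h⟩ : Fin (8 + 1))]
    · rw [if_pos]
      exact Fin.ext rfl
    · intro i _ hi
      rw [if_neg]
      intro h1
      apply hi
      exact Fin.ext (congrArg Fin.val h1).symm
    · intro h1
      exact absurd (mem_univ _) h1
  · rw [if_neg h]
    symm
    refine sum_eq_zero fun i _ => ?_
    rw [if_neg]
    intro h1
    apply h
    rw [h1]
    exact i.2

lemma nine_eq_ind (hd : 9 ≤ d) : nine d = ind ((univ : Finset (Fin 9)).map (Fin.castLEEmb hd)) := by
  funext j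
  simp only [nine, ind, mem_map, mem_univ, true_and]
  by_cases h : j.val < 9
  · rw [if_pos h, if_pos]
    exact ⟨⟨j.val, h⟩, Fin.ext rfl⟩
  · rw [if_neg h, if_neg]
    rintro ⟨i, rfl⟩
    exact h i.2

/-- The multilinear component of degree nine of `Alt(V)` has dimension at least `9!`. -/
theorem le_altChar (k : Type*) [Field k] (hd : 9 ≤ d) : 362880 ≤ altChar k (nine d) := by
  have h1 := factorial_le_gen k (n := 8) (Fin.castLE_injective hd)
  rw [← nine_eq_sum hd] at h1
  have h2 : (8 + 1).factorial = 362880 := by decide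
  rw [h2] at h1
  unfold altChar
  exact_mod_cast h1

theorem solves_nine_gen (hd : 9 ≤ d) {a b : (Fin d → ℕ) → ℤ} (h : Solves a b) :
    a (nine d) = 336364 := by
  obtain ⟨Φ, hL, h0, h1⟩ := h.sol
  have h2 := (hyp_all h.a_zero h.b_zero hL h0 h1 9 le_rfl
    ((univ : Finset (Fin 9)).map (Fin.castLEEmb hd)) (by simp)).1
  rw [← nine_eq_ind hd] at h2
  exact h2

end Pool.Agent.Zk64.Sh
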