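import Pool.Agent.Zk64.Alt.Defs

/-!
# The classes `a(V)`, `b(V)` and the character of the free alternative algebra: definitions

`V = k^d`, `d ≥ 0`. The Grothendieck ring `R` of polynomial `GL(V)`-representations is embedded by the
character into `ℤ[[z_1, …, z_d]]`, and `K(PSL_3)` by the character into the group ring of the root
lattice of `PSL_3`. So elements of `R ⊗ K(PSL_3)` (completed) are families `X α`, `α ∈ ℕ^d`, of
elements of the group ring, `X = ∑ z^α X α`.
-/

set_option autoImplicit false

namespace Pool.Agent.Zk64.Sh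

open Finset

/-- The group ring of the root lattice of `PSL_3`; the weight `(m, n)` is `m α₁ + n α₂`. -/
abbrev Lat : Type := AddMonoidAlgebra ℤ (ℤ × ℤ)

/-- The weight `m α₁ + n α₂` as an element of the group ring. -/
noncomputable def ex (m n : ℤ) : Lat := AddMonoidAlgebra.single (m, n) 1

/-- The character of the adjoint module `L(α₁ + α₂)`: six roots, and the weight `0` twice. -/
noncomputable def adj : Lat :=
  ex 1 0 + ex 0 1 + ex 1 1 + ex (-1) 0 + ex 0 (-1) + ex (-1) (-1) + 2

/-- The Weyl denominator `∏ (1 - e^(-α))`, `α` the positive roots. -/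
noncomputable def weyl : Lat := (1 - ex (-1) 0) * (1 - ex 0 (-1)) * (1 - ex (-1) (-1))

/-- The coefficient of the irreducible module with the highest weight `m α₁ + n α₂` in `x`, by the
Weyl character formula. -/
noncomputable def mult (m n : ℤ) (x : Lat) : ℤ := (x * weyl).coeff (m, n)

/-- The Adams operation `e^w ↦ e^(k w)`. -/
noncomputable def adams (k : ℕ) (x : Lat) : Lat :=
  AddMonoidAlgebra.mapDomain (fun w : ℤ × ℤ => k • w) x

variable {d : ℕ}

/-- The total degree. -/
def deg (α : Fin d → ℕ) : ℕ := ∑ i, α i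

/-- The coefficient at `z^δ` of `∑_(k ≥ 1) ψ^k (E X)`, where `E` multiplies `z^α` by the total degree
`|α|` and `ψ^k` is the Adams operation `z^α e^w ↦ z^(k α) e^(k w)`. -/
noncomputable def newton (X : (Fin d → ℕ) → Lat) (δ : Fin d → ℕ) : Lat :=
  ∑ k ∈ Icc 1 (deg δ),
    if ∀ i, k ∣ δ i then deg (fun i => δ i / k) • adams k (X fun i => δ i / k) else 0

/-- `Φ = λ(X)` for `X` without constant term: `Φ` has the constant term `1` and
`E Φ = - Φ ∑_(k ≥ 1) ψ^k (E X)`, that is `Φ = exp (- ∑ ψ^k X / k)`. -/
structure IsLambda (X Φ : (Fin d → ℕ) → Lat) : Prop where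
  zero : Φ 0 = 1
  eq : ∀ β, deg β • Φ β = - ∑ δ ∈ Icc 0 β, Φ (β - δ) * newton X δ

/-- The coefficients of `a`, `b` solve the equations which define `a(V)`, `b(V)`, `V = k^d`: with
`Φ = λ(a [L(α₁ + α₂)] + b [L(0)])`, `[Φ : [L(0)]] = [k]` and `[Φ : [L(α₁ + α₂)]] = -[V]`, where
`[V] = z_1 + … + z_d`. -/
structure Solves (a b : (Fin d → ℕ) → ℤ) : Prop where
  a_zero : a 0 = 0
  b_zero : b 0 = 0
  sol : ∃ Φ : (Fin d → ℕ) → Lat, IsLambda (fun α => a α • adj + b α • (1 : Lat)) Φ ∧
    (∀ β, mult 0 0 (Φ β) = if β = 0 then 1 else 0) ∧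
    ∀ β, mult 1 1 (Φ β) = - if deg β = 1 then 1 else 0

/-- The number of the occurrences of the generators in a nonassociative word. -/
def content : FreeMagma (Fin d) → Fin d → ℕ
  | FreeMagma.of x => Pi.single x 1
  | FreeMagma.mul u v => content u + content v

open Pool.Agent.Zk64.Alt in
/-- The homogeneous component of multidegree `α` of the free alternative algebra `Alt(V)` on
`x_1, …, x_d`, a basis of `V = k^d`: the space spanned by the words of content `α`. It is the weight
space for `z^α`. -/
noncomputable def comp (k : Type*) [Field k] (α : Fin d → ℕ) : Submodule k (FreeAlt k (Fin d)) :=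
  Submodule.span k {v | ∃ w : FreeMagma (Fin d), content w = α ∧
    v = FreeAlt.proj k (Fin d) (MonoidAlgebra.single w 1)}

/-- The character of `Alt(V)`. -/
noncomputable def altChar (k : Type*) [Field k] (α : Fin d → ℕ) : ℤ := Module.finrank k (comp k α)

end Pool.Agent.Zk64.Sh
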