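import Pool.Agent.Zk64.Sh.Low

/-!
# The homogeneous components are finite-dimensional
-/

set_option autoImplicit false
set_option linter.all false

namespace Pool.Agent.Zk64.Sh

open Finset Pool.Agent.Zk64.Alt

variable {d : ℕ}

lemma deg_add (α β : Fin d → ℕ) : deg (α + β) = deg α + deg β := by
  simp [deg, Finset.sum_add_distrib]

lemma deg_content (w : FreeMagma (Fin d)) : deg (content w) = w.length := by
  induction w using FreeMagma.recOnMul with
  | ih1 x => simp [content, deg, FreeMagma.length]
  | ih2 u v hu hv =>
    have h2 : content (u * v) = content u + content v := rfl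
    have h3 : (u * v).length = u.length + v.length := rfl
    rw [h2, h3, deg_add, hu, hv]

lemma finite_length (n : ℕ) : {w : FreeMagma (Fin d) | w.length ≤ n}.Finite := by
  induction n with
  | zero =>
    refine Set.finite_empty.subset fun w hw => ?_
    have h := FreeMagma.length_pos w
    simp only [Set.mem_setOf_eq] at hw
    omega
  | succ n ih =>
    refine ((Set.finite_range (FreeMagma.of (α := Fin d))).union
      (Set.Finite.image2 (fun u v => u * v) ih ih)).subset fun w hw => ?_
    induction w using FreeMagma.recOnMul with
    | ih1 x => exact Or.inl ⟨x, rfl⟩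
    | ih2 u v _ _ =>
      right
      have h3 : (u * v).length = u.length + v.length := rfl
      have h4 := FreeMagma.length_pos u
      have h5 := FreeMagma.length_pos v
      simp only [Set.mem_setOf_eq, h3] at hw
      exact ⟨u, by simp only [Set.mem_setOf_eq]; omega, v, by simp only [Set.mem_setOf_eq]; omega,
        rfl⟩

instance finite_comp (k : Type*) [Field k] (α : Fin d → ℕ) : Module.Finite k (comp k α) := by
  have h : ({v | ∃ w : FreeMagma (Fin d), content w = α ∧
      v = FreeAlt.proj k (Fin d) (MonoidAlgebra.single w 1)} : Set (FreeAlt k (Fin d))).Finite := by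
    refine ((finite_length (d := d) (deg α)).image fun w =>
      FreeAlt.proj k (Fin d) (MonoidAlgebra.single w 1)).subset ?_
    rintro v ⟨w, hw, rfl⟩
    refine ⟨w, ?_, rfl⟩
    simp only [Set.mem_setOf_eq]
    rw [← deg_content, hw]
  exact Module.Finite.span_of_finite k h

/-- The multilinear component of degree nine of `Alt(k^9)` has dimension at least `9!`. -/
theorem le_altChar_nine (k : Type*) [Field k] : 362880 ≤ altChar k (fun _ : Fin 9 => 1) := by
  have h1 := factorial_le (d := 8) k
  have h2 : (8 + 1).factorial = 362880 := by decide
  rw [h2] at h1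
  unfold altChar
  exact_mod_cast h1

end Pool.Agent.Zk64.Sh
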