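import Pool.Agent.Zk64.Sh.Rec
import Pool.Agent.Zk64.Sh.Fin

/-!
# Existence of `λ(X)`: the families `X` with a `λ(X)` form a group
-/

set_option autoImplicit false
set_option linter.all false

namespace Pool.Agent.Zk64.Sh

open Finset

variable {d : ℕ}

/-- power series over the group ring -/
abbrev PS (d : ℕ) : Type := MvPowerSeries (Fin d) Lat

/-- the power series of a family -/
noncomputable def ps (X : (Fin d → ℕ) → Lat) : PS d := fun n => X n

/-- the family of a power series -/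
noncomputable def fam (P : PS d) : (Fin d → ℕ) → Lat := fun α => P (Finsupp.equivFunOnFinite.symm α)

lemma coeff_ps (X : (Fin d → ℕ) → Lat) (n : Fin d →₀ ℕ) : MvPowerSeries.coeff n (ps X) = X n := rfl

lemma coe_symm (α : Fin d → ℕ) : (⇑(Finsupp.equivFunOnFinite.symm α) : Fin d → ℕ) = α := rfl

lemma symm_coe (n : Fin d →₀ ℕ) : Finsupp.equivFunOnFinite.symm (n : Fin d → ℕ) = n :=
  Finsupp.equivFunOnFinite.symm_apply_apply n

lemma ps_fam (P : PS d) : ps (fam P) = P := by
  funext n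
  show P (Finsupp.equivFunOnFinite.symm (n : Fin d → ℕ)) = P n
  rw [symm_coe]

/-- the Euler operator -/
noncomputable def eu (P : PS d) : PS d := fun n => deg (n : Fin d → ℕ) • P n

lemma coeff_eu (P : PS d) (n : Fin d →₀ ℕ) :
    MvPowerSeries.coeff n (eu P) = deg (n : Fin d → ℕ) • MvPowerSeries.coeff n P := rfl

lemma eu_mul (P Q : PS d) : eu (P * Q) = eu P * Q + P * eu Q := by
  classical
  refine MvPowerSeries.ext fun n => ?_
  rw [coeff_eu, map_add, MvPowerSeries.coeff_mul, MvPowerSeries.coeff_mul, MvPowerSeries.coeff_mul,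
    ← sum_add_distrib, smul_sum]
  refine sum_congr rfl fun p hp => ?_
  rw [HasAntidiagonal.mem_antidiagonal] at hp
  have h : deg (n : Fin d → ℕ) = deg (p.1 : Fin d → ℕ) + deg (p.2 : Fin d → ℕ) := by
    rw [← deg_add, ← hp]
    rfl
  rw [h, add_smul, coeff_eu, coeff_eu, smul_mul_assoc, mul_smul_comm]

lemma eu_neg (P : PS d) : eu (-P) = - eu P := by
  funext n
  exact smul_neg _ _

lemma eu_one : eu (1 : PS d) = 0 := by
  have h := eu_mul (1 : PS d) 1
  rw [mul_one, mul_one, one_mul] at h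
  exact left_eq_add.1 h

lemma sum_anti (n : Fin d →₀ ℕ) (f : (Fin d → ℕ) → (Fin d → ℕ) → Lat) :
    ∑ p ∈ antidiagonal n, f p.1 p.2 = ∑ δ ∈ Icc 0 (n : Fin d → ℕ), f (n - δ) δ := by
  refine Finset.sum_nbij' (fun p => (p.2 : Fin d → ℕ))
    (fun δ => (n - Finsupp.equivFunOnFinite.symm δ, Finsupp.equivFunOnFinite.symm δ))
    ?_ ?_ ?_ ?_ ?_
  · intro p hp
    rw [HasAntidiagonal.mem_antidiagonal] at hp
    rw [mem_Icc]
    refine ⟨fun i => Nat.zero_le _, fun i => ?_⟩
    rw [← hp]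
    simp
  · intro δ hδ
    rw [mem_Icc] at hδ
    rw [HasAntidiagonal.mem_antidiagonal]
    ext i
    show n i - δ i + δ i = n i
    exact Nat.sub_add_cancel (hδ.2 i)
  · intro p hp
    rw [HasAntidiagonal.mem_antidiagonal] at hp
    have h : Finsupp.equivFunOnFinite.symm (p.2 : Fin d → ℕ) = p.2 := symm_coe _
    rw [h]
    refine Prod.ext ?_ rfl
    show n - p.2 = p.1
    rw [← hp, add_tsub_cancel_right]
  · intro δ _
    rfl
  · intro p hp
    rw [HasAntidiagonal.mem_antidiagonal] at hp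
    congr 1
    rw [← hp]
    funext i
    simp

theorem isLambda_iff (X Φ : (Fin d → ℕ) → Lat) :
    IsLambda X Φ ↔ Φ 0 = 1 ∧ eu (ps Φ) = -(ps Φ * ps (newton X)) := by
  have key : ∀ n : Fin d →₀ ℕ, MvPowerSeries.coeff n (ps Φ * ps (newton X)) =
      ∑ δ ∈ Icc 0 (n : Fin d → ℕ), Φ (n - δ) * newton X δ := by
    classical
    intro n
    rw [MvPowerSeries.coeff_mul, ← sum_anti n (fun x y => Φ x * newton X y)]
    rfl
  constructor
  · intro h
    refine ⟨h.zero, MvPowerSeries.ext fun n => ?_⟩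
    rw [coeff_eu, map_neg, key, coeff_ps, h.eq]
  · intro h
    refine ⟨h.1, fun β => ?_⟩
    have h1 := congrArg (MvPowerSeries.coeff (Finsupp.equivFunOnFinite.symm β)) h.2
    rwa [coeff_eu, map_neg, key, coeff_ps] at h1

theorem isLambda_fam (X : (Fin d → ℕ) → Lat) (P : PS d) (h0 : MvPowerSeries.constantCoeff P = 1)
    (h : eu P = -(P * ps (newton X))) : IsLambda X (fam P) := by
  rw [isLambda_iff, ps_fam]
  refine ⟨?_, h⟩
  have h1 : fam P 0 = MvPowerSeries.coeff 0 P := by
    show P (Finsupp.equivFunOnFinite.symm 0) = P 0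
    have h2 : (Finsupp.equivFunOnFinite.symm (0 : Fin d → ℕ)) = 0 := by
      ext i
      rfl
    rw [h2]
  rw [h1]
  simpa using h0

lemma adams_add (k : ℕ) (x y : Lat) : adams k (x + y) = adams k x + adams k y :=
  AddMonoidAlgebra.mapDomain_add _ _ _

lemma adams_zero (k : ℕ) : adams k (0 : Lat) = 0 := by
  have h := adams_add k 0 0
  rw [add_zero] at h
  exact left_eq_add.1 h

lemma newton_add (X Y : (Fin d → ℕ) → Lat) : newton (X + Y) = newton X + newton Y := by
  funext δ
  simp only [newton, Pi.add_apply, ← sum_add_distrib]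
  refine sum_congr rfl fun k _ => ?_
  split_ifs
  · rw [adams_add, smul_add]
  · rw [add_zero]

lemma newton_zero_fam : newton (0 : (Fin d → ℕ) → Lat) = 0 := by
  have h := newton_add (0 : (Fin d → ℕ) → Lat) 0
  rw [add_zero] at h
  exact left_eq_add.1 h

lemma newton_neg (X : (Fin d → ℕ) → Lat) : newton (-X) = - newton X := by
  have h := newton_add X (-X)
  rw [add_neg_cancel, newton_zero_fam] at h
  exact (neg_eq_of_add_eq_zero_right h.symm).symm

lemma ps_add (X Y : (Fin d → ℕ) → Lat) : ps (X + Y) = ps X + ps Y := rfl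

lemma ps_neg (X : (Fin d → ℕ) → Lat) : ps (-X) = - ps X := rfl

lemma const_ps (X : (Fin d → ℕ) → Lat) : MvPowerSeries.constantCoeff (ps X) = X 0 := rfl

/-- The families `X` with a `λ(X)` form a group. -/
def LG (d : ℕ) : AddSubgroup ((Fin d → ℕ) → Lat) where
  carrier := {X | ∃ Φ, IsLambda X Φ}
  zero_mem' := ⟨fam 1, isLambda_fam _ _ (by simp) (by
    rw [newton_zero_fam, eu_one]
    have h : ps (0 : (Fin d → ℕ) → Lat) = 0 := rfl
    rw [h, mul_zero, neg_zero])⟩
  add_mem' := by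
    rintro X Y ⟨Φ, hΦ⟩ ⟨Ψ, hΨ⟩
    rw [isLambda_iff] at hΦ hΨ
    refine ⟨fam (ps Φ * ps Ψ), isLambda_fam _ _ ?_ ?_⟩
    · rw [map_mul, const_ps, const_ps, hΦ.1, hΨ.1, one_mul]
    · rw [eu_mul, hΦ.2, hΨ.2, newton_add, ps_add]
      ring
  neg_mem' := by
    rintro X ⟨Φ, hΦ⟩
    rw [isLambda_iff] at hΦ
    have h1 : ps Φ * MvPowerSeries.invOfUnit (ps Φ) 1 = 1 :=
      MvPowerSeries.mul_invOfUnit _ _ (by rw [const_ps, hΦ.1, Units.val_one])
    generalize MvPowerSeries.invOfUnit (ps Φ) 1 = Q at h1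
    refine ⟨fam Q, isLambda_fam _ _ ?_ ?_⟩
    · have h2 := congrArg MvPowerSeries.constantCoeff h1
      rw [map_mul, const_ps, hΦ.1, one_mul, map_one] at h2
      exact h2
    · have h2 := congrArg eu h1
      rw [eu_one, eu_mul, hΦ.2] at h2
      rw [newton_neg, ps_neg]
      have h3 : eu Q = (ps Φ * Q) * eu Q := by rw [h1, one_mul]
      linear_combination h3 + Q * h2 + Q * ps (newton X) * h1

end Pool.Agent.Zk64.Sh
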