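import Pool.Agent.Zk64.Sh.Ex1

/-!
# Existence of `λ(X)`
-/

set_option autoImplicit false
set_option linter.all false

namespace Pool.Agent.Zk64.Sh

open Finset

variable {d : ℕ}

lemma adams_single (k : ℕ) (w : ℤ × ℤ) (c : ℤ) :
    adams k (AddMonoidAlgebra.single w c) = AddMonoidAlgebra.single (k • w) c :=
  AddMonoidAlgebra.mapDomain_single

lemma deg_pos {α : Fin d → ℕ} (h : α ≠ 0) : 0 < deg α := by
  obtain ⟨i, hi⟩ := Function.ne_iff.1 h
  have h1 : α i ≤ deg α := Finset.single_le_sum (f := α) (fun _ _ => Nat.zero_le _) (mem_univ i)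
  have h2 : 0 < α i := Nat.pos_of_ne_zero hi
  omega

lemma deg_smul (k : ℕ) (α : Fin d → ℕ) : deg (k • α) = k * deg α := by
  simp [deg, Finset.mul_sum]

lemma smul_inj {α : Fin d → ℕ} (h : α ≠ 0) {j k : ℕ} (e : j • α = k • α) : j = k := by
  have h1 := congrArg deg e
  rw [deg_smul, deg_smul] at h1
  exact Nat.eq_of_mul_eq_mul_right (deg_pos h) h1

lemma newton_line {α : Fin d → ℕ} (e : Lat) (δ : Fin d → ℕ) :
    newton (Pi.single α e) δ =
      ∑ k ∈ Icc 1 (deg δ), if δ = k • α then deg α • adams k e else 0 := by
  classical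
  unfold newton
  refine sum_congr rfl fun k hk => ?_
  rw [mem_Icc] at hk
  by_cases h : δ = k • α
  · subst h
    have h1 : (fun i => (k • α) i / k) = α := by
      funext i
      simp only [Pi.smul_apply, smul_eq_mul]
      exact Nat.mul_div_cancel_left _ (by omega)
    rw [if_pos (fun i => ⟨α i, rfl⟩), if_pos rfl, h1, Pi.single_eq_same]
  · rw [if_neg h]
    split_ifs with h1
    · have h2 : (fun i => δ i / k) ≠ α := by
        rintro rfl
        apply h
        funext i
        simp only [Pi.smul_apply, smul_eq_mul]
        exact (Nat.mul_div_cancel' (h1 i)).symm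
      rw [Pi.single_eq_of_ne h2, adams_zero, smul_zero]
    · rfl

lemma newton_line_mul {α : Fin d → ℕ} (hα : α ≠ 0) (e : Lat) {k : ℕ} (hk : 1 ≤ k) :
    newton (Pi.single α e) (k • α) = deg α • adams k e := by
  rw [newton_line, Finset.sum_eq_single_of_mem k]
  · rw [if_pos rfl]
  · rw [mem_Icc, deg_smul]
    exact ⟨hk, Nat.le_mul_of_pos_right _ (deg_pos hα)⟩
  · intro j _ hj
    rw [if_neg]
    intro h
    exact hj (smul_inj hα h).symm

lemma newton_line_ne {α : Fin d → ℕ} (e : Lat) {δ : Fin d → ℕ} (h : ∀ k : ℕ, 1 ≤ k → δ ≠ k • α) :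
    newton (Pi.single α e) δ = 0 := by
  rw [newton_line]
  refine sum_eq_zero fun k hk => ?_
  rw [mem_Icc] at hk
  rw [if_neg (h k hk.1)]

lemma newton_at_zero (X : (Fin d → ℕ) → Lat) : newton X 0 = 0 := by
  simp [newton, deg]

/-- `λ(z^α e^w) = 1 - z^α e^w` -/
theorem line_mem {α : Fin d → ℕ} (hα : α ≠ 0) (w : ℤ × ℤ) :
    (Pi.single α (AddMonoidAlgebra.single w 1 : Lat)) ∈ LG d := by
  classical
  set e : Lat := AddMonoidAlgebra.single w 1 with he
  set s : Fin d →₀ ℕ := Finsupp.equivFunOnFinite.symm α with hs
  have hsα : (s : Fin d → ℕ) = α := rfl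
  have hs0 : s ≠ 0 := by
    intro h
    apply hα
    rw [← hsα, h]
    rfl
  refine ⟨fam (1 - MvPowerSeries.monomial s e), isLambda_fam _ _ ?_ ?_⟩
  · rw [map_sub, map_one, ← MvPowerSeries.coeff_zero_eq_constantCoeff_apply,
      MvPowerSeries.coeff_monomial, if_neg hs0.symm, sub_zero]
  · have h1 : eu (1 - MvPowerSeries.monomial s e : PS d) =
        - (deg α • MvPowerSeries.monomial s e : PS d) := by
      refine MvPowerSeries.ext fun n => ?_
      rw [coeff_eu, map_sub, map_neg, map_nsmul, smul_sub, MvPowerSeries.coeff_monomial,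
        MvPowerSeries.coeff_one]
      by_cases h : n = s
      · rw [h, if_neg hs0, if_pos rfl, smul_zero, zero_sub, hsα]
      · rw [if_neg h, smul_zero, smul_zero, sub_zero, neg_zero]
        split_ifs with h2
        · rw [h2]
          simp [deg]
        · exact smul_zero _
    rw [h1]
    congr 1
    rw [sub_mul, one_mul]
    refine MvPowerSeries.ext fun n => ?_
    rw [map_nsmul, map_sub, MvPowerSeries.coeff_monomial_mul, MvPowerSeries.coeff_monomial,
      coeff_ps, coeff_ps]
    by_cases h : ∃ k : ℕ, 1 ≤ k ∧ (n : Fin d → ℕ) = k • α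
    · obtain ⟨k, hk, hn⟩ := h
      have hle : s ≤ n := by
        intro i
        have h3 := congrFun hn i
        simp only [Pi.smul_apply, smul_eq_mul] at h3
        rw [h3]
        exact Nat.le_mul_of_pos_left _ hk
      rw [if_pos hle, hn, newton_line_mul hα e hk]
      have h4 : ((n - s : Fin d →₀ ℕ) : Fin d → ℕ) = (k - 1) • α := by
        funext i
        have h3 := congrFun hn i
        simp only [Pi.smul_apply, smul_eq_mul] at h3
        show n i - α i = (k - 1) • α i
        rw [h3, smul_eq_mul, Nat.sub_mul, one_mul]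
      rw [h4]
      by_cases hk1 : k = 1
      · subst hk1
        have h5 : n = s := by
          ext i
          have h3 := congrFun hn i
          rw [one_smul] at h3
          exact h3
        rw [if_pos h5, Nat.sub_self, zero_smul, newton_at_zero, mul_zero, sub_zero, adams_one]
      · rw [newton_line_mul hα e (by omega : 1 ≤ k - 1)]
        have h5 : n ≠ s := by
          intro h5
          rw [h5, hsα] at hn
          have h6 : 1 • α = k • α := by rw [one_smul]; exact hn
          exact hk1 (smul_inj hα h6).symm
        rw [if_neg h5, smul_zero, mul_smul_comm, ← smul_sub]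
        have h6 : adams k e = e * adams (k - 1) e := by
          rw [he, adams_single, adams_single, AddMonoidAlgebra.single_mul_single, mul_one]
          congr 1
          conv_lhs => rw [show k = 1 + (k - 1) by omega, add_smul, one_smul]
        rw [h6, sub_self, smul_zero]
    · push Not at h
      have h5 : n ≠ s := by
        intro h5
        apply h 1 le_rfl
        rw [h5, hsα, one_smul]
      rw [if_neg h5, smul_zero, newton_line_ne e h, zero_sub]
      split_ifs with hle
      · rw [newton_line_ne e, mul_zero, neg_zero]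
        intro k hk h6
        apply h (k + 1) (by omega)
        funext i
        have h7 := congrFun h6 i
        have h8 : n i - α i = k • α i := h7
        have h9 : α i ≤ n i := hle i
        rw [smul_eq_mul] at h8
        show n i = (k + 1) • α i
        rw [smul_eq_mul, add_mul, one_mul]
        omega
      · rw [neg_zero]

theorem single_mem {α : Fin d → ℕ} (hα : α ≠ 0) (x : Lat) : (Pi.single α x) ∈ LG d := by
  classical
  induction x using AddMonoidAlgebra.induction_linear with
  | zero =>
    rw [Pi.single_zero]
    exact zero_mem _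
  | add x y hx hy =>
    rw [Pi.single_add]
    exact add_mem hx hy
  | single w c =>
    have h : (AddMonoidAlgebra.single w c : Lat) = c • AddMonoidAlgebra.single w 1 := by
      rw [AddMonoidAlgebra.smul_single, smul_eq_mul, mul_one]
    rw [h, Pi.single_zsmul]
    exact zsmul_mem (line_mem hα w) c

end Pool.Agent.Zk64.Sh
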