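import Pool.Agent.Zk64.Sh.Ex2

/-!
# Existence and uniqueness of `a(V)`, `b(V)`
-/

set_option autoImplicit false
set_option linter.all false

namespace Pool.Agent.Zk64.Sh

open Finset

variable {d : ℕ}

lemma newton_low {Z : (Fin d → ℕ) → Lat} {δ : Fin d → ℕ} (h : ∀ α, deg α < deg δ → Z α = 0) :
    newton Z δ = deg δ • Z δ := by
  by_cases h0 : deg δ = 0
  · simp [newton, h0]
  · unfold newton
    rw [Finset.sum_eq_single_of_mem 1 (by rw [mem_Icc]; omega)]
    · rw [if_pos fun j => one_dvd _]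
      simp only [Nat.div_one]
      rw [adams_one]
    · intro k hk hk1
      rw [mem_Icc] at hk
      split_ifs with h1
      · have h2 : deg δ = k * deg (fun i => δ i / k) := by
          rw [← deg_smul]
          congr 1
          funext i
          exact (Nat.mul_div_cancel' (h1 i)).symm
        have h3 : deg (fun i => δ i / k) < deg δ := by
          have h4 : 2 ≤ k := by omega
          have h5 : 0 < deg (fun i => δ i / k) := by
            rcases Nat.eq_zero_or_pos (deg fun i => δ i / k) with h6 | h6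
            · rw [h6, mul_zero] at h2
              omega
            · exact h6
          nlinarith
        rw [h _ h3, adams_zero, smul_zero]
      · rfl

lemma newton_split (X Y : (Fin d → ℕ) → Lat) (δ : Fin d → ℕ) :
    newton Y δ = newton X δ + newton (Y - X) δ := by
  have h := congrFun (newton_add X (Y - X)) δ
  rw [add_sub_cancel] at h
  exact h

lemma newton_congr {X Y : (Fin d → ℕ) → Lat} {δ : Fin d → ℕ}
    (h : ∀ α, deg α ≤ deg δ → X α = Y α) : newton X δ = newton Y δ := by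
  have h1 : newton (Y - X) δ = 0 := by
    rw [newton_low, Pi.sub_apply, h δ le_rfl, sub_self, smul_zero]
    intro α hα
    rw [Pi.sub_apply, h α hα.le, sub_self]
  rw [newton_split X Y δ, h1, add_zero]

lemma deg_sub {β δ : Fin d → ℕ} (h : δ ≤ β) : deg β = deg (β - δ) + deg δ := by
  rw [← deg_add, tsub_add_cancel_of_le h]

lemma deg_eq_zero {β : Fin d → ℕ} : deg β = 0 ↔ β = 0 := by
  constructor
  · intro h
    by_contra h1
    have := deg_pos h1
    omega
  · rintro rfl
    simp [deg]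

lemma key1 {X Y Φ Ψ : (Fin d → ℕ) → Lat} (hΦ : IsLambda X Φ) (hΨ : IsLambda Y Ψ)
    {β : Fin d → ℕ} (hβ : β ≠ 0) (h : ∀ α, deg α < deg β → X α = Y α)
    (h2 : ∀ γ, deg γ < deg β → Φ γ = Ψ γ) : Ψ β = Φ β - (Y β - X β) := by
  classical
  have hb := deg_pos hβ
  refine nsmul_cancel hb.ne' ?_
  rw [smul_sub, hΦ.eq, hΨ.eq, sub_eq_add_neg, ← neg_add]
  congr 1
  have h3 : deg β • (Y β - X β) =
      ∑ δ ∈ Icc 0 β, if δ = β then deg β • (Y β - X β) else 0 := by
    rw [Finset.sum_ite_eq', if_pos]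
    rw [mem_Icc]
    exact ⟨fun i => Nat.zero_le _, le_rfl⟩
  rw [h3, ← sum_add_distrib]
  refine sum_congr rfl fun δ hδ => ?_
  rw [mem_Icc] at hδ
  have hd := deg_sub hδ.2
  by_cases h4 : δ = β
  · subst h4
    have h1 : newton (Y - X) δ = deg δ • (Y δ - X δ) := by
      rw [newton_low, Pi.sub_apply]
      intro α hα
      rw [Pi.sub_apply, h α hα, sub_self]
    rw [if_pos rfl, tsub_self, hΦ.zero, hΨ.zero, one_mul, one_mul, newton_split X Y, h1]
  · rw [if_neg h4, add_zero]
    by_cases h5 : δ = 0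
    · subst h5
      rw [newton_at_zero, newton_at_zero, mul_zero, mul_zero]
    · have h6 := deg_pos h5
      have h7 : deg δ ≠ deg β := by
        intro h7
        have h8 : deg (β - δ) = 0 := by omega
        rw [deg_eq_zero] at h8
        apply h4
        exact le_antisymm hδ.2 (tsub_eq_zero_iff_le.1 h8)
      rw [h2 (β - δ) (by omega), newton_congr (X := X) (Y := Y)]
      intro α hα
      exact h α (by omega)

lemma key2 {X Y Φ Ψ : (Fin d → ℕ) → Lat} (hΦ : IsLambda X Φ) (hΨ : IsLambda Y Ψ) {n : ℕ}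
    (h : ∀ α, deg α ≤ n → X α = Y α) : ∀ β, deg β ≤ n → Φ β = Ψ β := by
  have main : ∀ m : ℕ, ∀ β, deg β = m → m ≤ n → Φ β = Ψ β := by
    intro m
    induction m using Nat.strong_induction_on with
    | _ m ih =>
      intro β hβ hm
      by_cases h0 : β = 0
      · rw [h0, hΦ.zero, hΨ.zero]
      · have h1 := key1 hΦ hΨ h0 (fun α hα => h α (by omega))
          (fun γ hγ => ih (deg γ) (by omega) γ rfl (by omega))
        rw [h1, h β (by omega), sub_self, sub_zero]
  intro β hβ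
  exact main _ β rfl hβ

/-- truncation -/
noncomputable def trunc (n : ℕ) (X : (Fin d → ℕ) → Lat) : (Fin d → ℕ) → Lat :=
  fun α => if deg α ≤ n then X α else 0

lemma le_deg (β : Fin d → ℕ) (i : Fin d) : β i ≤ deg β :=
  Finset.single_le_sum (f := β) (fun _ _ => Nat.zero_le _) (mem_univ i)

theorem trunc_mem (n : ℕ) {X : (Fin d → ℕ) → Lat} (h0 : X 0 = 0) : trunc n X ∈ LG d := by
  classical
  have h : trunc n X = ∑ α ∈ (Icc (0 : Fin d → ℕ) (fun _ => n)).filter
      (fun α => deg α ≤ n ∧ α ≠ 0), Pi.single α (X α) := by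
    funext β
    rw [Finset.sum_apply]
    simp only [Pi.single_apply]
    rw [Finset.sum_ite_eq, trunc]
    by_cases h1 : deg β ≤ n
    · rw [if_pos h1]
      by_cases h2 : β = 0
      · rw [h2, h0, if_neg]
        intro h3
        exact (mem_filter.1 h3).2.2 rfl
      · rw [if_pos]
        rw [mem_filter, mem_Icc]
        exact ⟨⟨fun i => Nat.zero_le _, fun i => (le_deg β i).trans h1⟩, h1, h2⟩
    · rw [if_neg h1, if_neg]
      intro h3
      exact h1 (mem_filter.1 h3).2.1
  rw [h]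
  refine sum_mem fun α hα => ?_
  exact single_mem (mem_filter.1 hα).2.2 _

/-- **Existence of `λ(X)`.** -/
theorem exists_lambda (X : (Fin d → ℕ) → Lat) (h0 : X 0 = 0) : ∃ Φ, IsLambda X Φ := by
  choose F hF using fun n => (trunc_mem n h0 : ∃ Φ, IsLambda (trunc n X) Φ)
  refine ⟨fun β => F (deg β) β, ⟨(hF _).zero, fun β => ?_⟩⟩
  rw [(hF (deg β)).eq β]
  congr 1
  refine sum_congr rfl fun δ hδ => ?_
  rw [mem_Icc] at hδ
  have hd := deg_sub hδ.2
  have h1 : newton (trunc (deg β) X) δ = newton X δ := by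
    refine newton_congr fun α hα => ?_
    rw [trunc, if_pos (by omega)]
  have h2 : F (deg β) (β - δ) = F (deg (β - δ)) (β - δ) := by
    refine key2 (hF _) (hF _) (n := deg (β - δ)) (fun α hα => ?_) _ le_rfl
    rw [trunc, trunc, if_pos (by omega), if_pos hα]
  rw [h1, h2]

/-- the argument of `λ` -/
noncomputable def XX (a b : (Fin d → ℕ) → ℤ) : (Fin d → ℕ) → Lat :=
  fun α => a α • adj + b α • (1 : Lat)

lemma XX_zero {a b : (Fin d → ℕ) → ℤ} (ha : a 0 = 0) (hb : b 0 = 0) : XX a b 0 = 0 := by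
  rw [XX, ha, hb, zero_smul, zero_smul, add_zero]

lemma XX_congr {a b a' b' : (Fin d → ℕ) → ℤ} {α : Fin d → ℕ} (ha : a α = a' α) (hb : b α = b' α) :
    XX a b α = XX a' b' α := by
  rw [XX, XX, ha, hb]

/-- solutions up to the degree `n` -/
def Part (n : ℕ) (a b : (Fin d → ℕ) → ℤ) : Prop :=
  a 0 = 0 ∧ b 0 = 0 ∧ ∃ Φ, IsLambda (XX a b) Φ ∧ ∀ β, deg β ≤ n →
    mult 0 0 (Φ β) = (if β = 0 then 1 else 0) ∧ mult 1 1 (Φ β) = - (if deg β = 1 then 1 else 0)

lemma Part.mono {m n : ℕ} {a b : (Fin d → ℕ) → ℤ} (h : Part n a b) (hm : m ≤ n) : Part m a b := by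
  obtain ⟨h1, h2, Φ, h3, h4⟩ := h
  exact ⟨h1, h2, Φ, h3, fun β hβ => h4 β (hβ.trans hm)⟩

lemma m0a : mult 0 0 adj = 0 := by simpa [cc] using mult_zero 1 (by omega)
lemma m1a : mult 1 1 adj = 1 := by simpa [cc] using mult_one 1 (by omega)
lemma m00 : mult 0 0 1 = 1 := by simpa [cc] using mult_zero 0 (by omega)
lemma m10 : mult 1 1 1 = 0 := by simpa [cc] using mult_one 0 (by omega)

lemma mult_sub (m n : ℤ) (x y : Lat) : mult m n (x - y) = mult m n x - mult m n y := by
  rw [sub_eq_add_neg, mult_add, mult_neg, ← sub_eq_add_neg]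

lemma m0X (a b : (Fin d → ℕ) → ℤ) (α : Fin d → ℕ) : mult 0 0 (XX a b α) = b α := by
  rw [XX, mult_add, mult_zsmul, mult_zsmul, m0a, m00]
  ring

lemma m1X (a b : (Fin d → ℕ) → ℤ) (α : Fin d → ℕ) : mult 1 1 (XX a b α) = a α := by
  rw [XX, mult_add, mult_zsmul, mult_zsmul, m1a, m10]
  ring

lemma part_unique {n : ℕ} {a b a' b' : (Fin d → ℕ) → ℤ} (h : Part n a b) (h' : Part n a' b') :
    ∀ β, deg β ≤ n → a β = a' β ∧ b β = b' β := by
  obtain ⟨ha, hb, Φ, hΦ, hc⟩ := h
  obtain ⟨ha', hb', Ψ, hΨ, hc'⟩ := h'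
  have main : ∀ m : ℕ, ∀ β, deg β = m → m ≤ n → a β = a' β ∧ b β = b' β := by
    intro m
    induction m using Nat.strong_induction_on with
    | _ m ih =>
      intro β hβ hm
      by_cases h0 : β = 0
      · rw [h0, ha, ha', hb, hb']
        exact ⟨rfl, rfl⟩
      · have hl : ∀ α, deg α < deg β → XX a b α = XX a' b' α := fun α hα => by
          have h3 := ih (deg α) (by omega) α rfl (by omega)
          exact XX_congr h3.1 h3.2
        have h1 := key1 hΦ hΨ h0 hl (fun γ hγ =>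
          key2 hΦ hΨ (n := deg γ) (fun α hα => hl α (by omega)) γ le_rfl)
        have e0 := congrArg (mult 0 0) h1
        have e1 := congrArg (mult 1 1) h1
        rw [mult_sub, mult_sub, (hc β (by omega)).1, (hc' β (by omega)).1, m0X, m0X] at e0
        rw [mult_sub, mult_sub, (hc β (by omega)).2, (hc' β (by omega)).2, m1X, m1X] at e1
        constructor
        · linarith
        · linarith
  intro β hβ
  exact main _ β rfl hβ

lemma part_zero : Part 0 (0 : (Fin d → ℕ) → ℤ) 0 := by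
  obtain ⟨Φ, hΦ⟩ := exists_lambda (XX (0 : (Fin d → ℕ) → ℤ) 0) (XX_zero rfl rfl)
  refine ⟨rfl, rfl, Φ, hΦ, fun β hβ => ?_⟩
  have h1 : β = 0 := deg_eq_zero.1 (by omega)
  subst h1
  rw [hΦ.zero, m00, m10, if_pos rfl, if_neg]
  · exact ⟨rfl, rfl⟩
  · simp [deg]

lemma part_succ {n : ℕ} {a b : (Fin d → ℕ) → ℤ} (h : Part n a b) :
    ∃ a' b' : (Fin d → ℕ) → ℤ, Part (n + 1) a' b' := by
  classical
  obtain ⟨ha, hb, Φ, hΦ, hc⟩ := h
  let a' : (Fin d → ℕ) → ℤ := fun β => if deg β = n + 1 then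
    a β + mult 1 1 (Φ β) + (if deg β = 1 then 1 else 0) else a β
  let b' : (Fin d → ℕ) → ℤ := fun β => if deg β = n + 1 then b β + mult 0 0 (Φ β) else b β
  have hd0 : deg (0 : Fin d → ℕ) ≠ n + 1 := by
    rw [deg_eq_zero.2 rfl]
    omega
  have ha' : a' 0 = 0 := by
    show (if deg (0 : Fin d → ℕ) = n + 1 then _ else _) = _
    rw [if_neg hd0, ha]
  have hb' : b' 0 = 0 := by
    show (if deg (0 : Fin d → ℕ) = n + 1 then _ else _) = _
    rw [if_neg hd0, hb]
  have hlow : ∀ α, deg α ≤ n → XX a b α = XX a' b' α := fun α hα => by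
    have h1 : deg α ≠ n + 1 := by omega
    refine XX_congr ?_ ?_
    · show _ = if deg α = n + 1 then _ else _
      rw [if_neg h1]
    · show _ = if deg α = n + 1 then _ else _
      rw [if_neg h1]
  obtain ⟨Ψ, hΨ⟩ := exists_lambda (XX a' b') (XX_zero ha' hb')
  have hs := key2 hΦ hΨ hlow
  refine ⟨a', b', ha', hb', Ψ, hΨ, fun β hβ => ?_⟩
  by_cases h1 : deg β ≤ n
  · rw [← hs β h1]
    exact hc β h1
  · have h2 : deg β = n + 1 := by omega
    have h3 : β ≠ 0 := by
      rintro rfl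
      exact hd0 h2
    have h4 := key1 hΦ hΨ h3 (fun α hα => hlow α (by omega)) (fun γ hγ => hs γ (by omega))
    have ea : a' β = a β + mult 1 1 (Φ β) + (if deg β = 1 then 1 else 0) := if_pos h2
    have eb : b' β = b β + mult 0 0 (Φ β) := if_pos h2
    rw [h4, mult_sub, mult_sub, mult_sub, mult_sub, m0X, m0X, m1X, m1X, ea, eb, if_neg h3]
    constructor
    · ring
    · ring

lemma part_exists (n : ℕ) : ∃ a b : (Fin d → ℕ) → ℤ, Part n a b := by
  induction n with
  | zero => exact ⟨0, 0, part_zero⟩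
  | succ n ih =>
    obtain ⟨a, b, h⟩ := ih
    exact part_succ h

/-- **Existence of `a(V)`, `b(V)`.** -/
theorem exists_solves (d : ℕ) : ∃ a b : (Fin d → ℕ) → ℤ, Solves a b := by
  choose A B hAB using fun n => part_exists (d := d) n
  let a : (Fin d → ℕ) → ℤ := fun β => A (deg β) β
  let b : (Fin d → ℕ) → ℤ := fun β => B (deg β) β
  have ha : a 0 = 0 := (hAB _).1
  have hb : b 0 = 0 := (hAB _).2.1
  obtain ⟨Φ, hΦ⟩ := exists_lambda (XX a b) (XX_zero ha hb)
  have main : ∀ β, mult 0 0 (Φ β) = (if β = 0 then 1 else 0) ∧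
      mult 1 1 (Φ β) = - (if deg β = 1 then 1 else 0) := by
    intro β
    obtain ⟨_, _, Ψ, hΨ, hc⟩ := hAB (deg β)
    have h1 : Φ β = Ψ β := by
      refine key2 hΦ hΨ (n := deg β) (fun α hα => ?_) β le_rfl
      have h2 := part_unique (hAB (deg α)) ((hAB (deg β)).mono hα) α le_rfl
      exact XX_congr h2.1 h2.2
    rw [h1]
    exact hc β le_rfl
  exact ⟨a, b, ha, hb, Φ, hΦ, fun β => (main β).1, fun β => (main β).2⟩

lemma Solves.part {a b : (Fin d → ℕ) → ℤ} (h : Solves a b) (n : ℕ) : Part n a b := by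
  obtain ⟨Φ, hΦ, h0, h1⟩ := h.sol
  exact ⟨h.a_zero, h.b_zero, Φ, hΦ, fun β _ => ⟨h0 β, h1 β⟩⟩

/-- **Uniqueness of `a(V)`, `b(V)`.** -/
theorem solves_unique {a b a' b' : (Fin d → ℕ) → ℤ} (h : Solves a b) (h' : Solves a' b') :
    a = a' ∧ b = b' := by
  have key := fun β => part_unique (h.part (deg β)) (h'.part (deg β)) β le_rfl
  exact ⟨funext fun β => (key β).1, funext fun β => (key β).2⟩

end Pool.Agent.Zk64.Sh
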