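import Pool.Agent.Zk64.Sh.Defs
import Pool.Agent.Zk64.Alt.Free

/-!
# The free alternative algebra maps onto the free associative algebra
-/

set_option autoImplicit false
set_option linter.all false

namespace Pool.Agent.Zk64.Sh

open Finset Pool.Agent.Zk64.Alt

variable {d : ℕ}

/-- the associative word -/
def aw : FreeMagma (Fin d) → FreeMonoid (Fin d)
  | FreeMagma.of x => FreeMonoid.of x
  | FreeMagma.mul u v => aw u * aw v

lemma isAlt_assoc (k : Type*) [Field k] : IsAlt (MonoidAlgebra k (FreeMonoid (Fin d))) := by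
  intro a b
  simp [associator, mul_assoc]

/-- the map to the free associative algebra -/
theorem exists_assoc (k : Type*) [Field k] :
    ∃ F : FreeAlt k (Fin d) →ₗ[k] MonoidAlgebra k (FreeMonoid (Fin d)),
      ∀ w : FreeMagma (Fin d), F (FreeAlt.proj k (Fin d) (MonoidAlgebra.single w 1)) =
        MonoidAlgebra.single (aw w) 1 := by
  obtain ⟨F, hF, hx⟩ := FreeAlt.exists_hom (K := k) (X := Fin d) (isAlt_assoc (d := d) k)
    (fun x => MonoidAlgebra.single (FreeMonoid.of x) 1)
  refine ⟨F, fun w => ?_⟩
  induction w using FreeMagma.recOnMul with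
  | ih1 x => exact hx x
  | ih2 u v hu hv =>
    have h : (MonoidAlgebra.single (u * v) 1 : FreeNonUnitalNonAssocAlgebra k (Fin d)) =
        MonoidAlgebra.single u 1 * MonoidAlgebra.single v 1 := by
      rw [MonoidAlgebra.single_mul_single, one_mul]
    rw [h, FreeAlt.proj_mul, hF, hu, hv, MonoidAlgebra.single_mul_single, one_mul]
    rfl

/-- left-normed words -/
def lw (w : FreeMagma (Fin d)) (l : List (Fin d)) : FreeMagma (Fin d) :=
  l.foldl (fun w y => w * FreeMagma.of y) w

lemma content_lw (w : FreeMagma (Fin d)) (l : List (Fin d)) :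
    content (lw w l) = content w + (l.map fun y => Pi.single y 1).sum := by
  induction l generalizing w with
  | nil => simp [lw]
  | cons y l ih =>
    have h : lw w (y :: l) = lw (w * FreeMagma.of y) l := rfl
    have h2 : content (w * FreeMagma.of y) = content w + Pi.single y 1 := rfl
    rw [h, ih, h2, List.map_cons, List.sum_cons, add_assoc]

lemma aw_lw (w : FreeMagma (Fin d)) (l : List (Fin d)) :
    aw (lw w l) = aw w * FreeMonoid.ofList l := by
  induction l generalizing w with
  | nil => simp [lw]
  | cons y l ih =>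
    have h : lw w (y :: l) = lw (w * FreeMagma.of y) l := rfl
    have h2 : aw (w * FreeMagma.of y) = aw w * FreeMonoid.of y := rfl
    rw [h, ih, h2, FreeMonoid.ofList_cons, mul_assoc]

/-- the word of a permutation -/
def pword (σ : Equiv.Perm (Fin (d + 1))) : FreeMagma (Fin (d + 1)) :=
  lw (FreeMagma.of (σ 0)) ((List.finRange d).map fun i => σ i.succ)

lemma content_pword (σ : Equiv.Perm (Fin (d + 1))) : content (pword σ) = fun _ => 1 := by
  rw [pword, content_lw, List.map_map]
  have h : ((List.finRange d).map ((fun y => (Pi.single y 1 : Fin (d + 1) → ℕ)) ∘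
      fun i => σ i.succ)).sum = ∑ i : Fin d, (Pi.single (σ i.succ) 1 : Fin (d + 1) → ℕ) := by
    rw [← List.sum_ofFn, List.ofFn_eq_map]
    rfl
  rw [h]
  have h2 : content (FreeMagma.of (σ 0)) = (Pi.single (σ 0) 1 : Fin (d + 1) → ℕ) := rfl
  rw [h2, ← Fin.sum_univ_succ (fun i => (Pi.single (σ i) 1 : Fin (d + 1) → ℕ)),
    Equiv.sum_comp σ (fun i => (Pi.single i 1 : Fin (d + 1) → ℕ))]
  exact Finset.univ_sum_single (fun _ => 1)

lemma aw_pword_inj {σ τ : Equiv.Perm (Fin (d + 1))} (h : aw (pword σ) = aw (pword τ)) : σ = τ := by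
  rw [pword, pword, aw_lw, aw_lw] at h
  have h1 : (σ 0 :: (List.finRange d).map fun i => σ i.succ) =
      (τ 0 :: (List.finRange d).map fun i => τ i.succ) := h
  rw [List.cons.injEq] at h1
  ext i
  refine Fin.cases ?_ (fun j => ?_) i
  · rw [h1.1]
  · have h2 := List.map_inj_left.1 h1.2 j (List.mem_finRange j)
    rw [h2]

theorem factorial_le (k : Type*) [Field k]
    [Module.Finite k (comp k (fun _ : Fin (d + 1) => 1))] :
    (d + 1).factorial ≤ Module.finrank k (comp k (fun _ : Fin (d + 1) => 1)) := by
  classical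
  obtain ⟨F, hF⟩ := exists_assoc (d := d + 1) k
  let v : Equiv.Perm (Fin (d + 1)) → comp k (fun _ : Fin (d + 1) => 1) := fun σ =>
    ⟨FreeAlt.proj k (Fin (d + 1)) (MonoidAlgebra.single (pword σ) 1),
      Submodule.subset_span ⟨pword σ, content_pword σ, rfl⟩⟩
  have hv : LinearIndependent k v := by
    rw [Fintype.linearIndependent_iff]
    intro g hg τ
    have h1 := congrArg (fun z : comp k (fun _ : Fin (d + 1) => 1) => F z.1) hg
    simp only [Submodule.coe_sum, Submodule.coe_smul, map_sum, map_smul, Submodule.coe_zero,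
      map_zero, v, hF] at h1
    have h2 := congrArg (fun z => MonoidAlgebra.coeff z (aw (pword τ))) h1
    simp only [MonoidAlgebra.coeff_zero, Finsupp.coe_zero, Pi.zero_apply] at h2
    rw [MonoidAlgebra.coeff_sum, Finsupp.finset_sum_apply] at h2
    rw [Finset.sum_eq_single τ] at h2
    · simpa using h2
    · intro σ _ hσ
      rw [MonoidAlgebra.coeff_smul_apply, MonoidAlgebra.coeff_single, Finsupp.single_apply,
        if_neg (fun h => hσ (aw_pword_inj h)), smul_zero]
    · intro h
      exact absurd (mem_univ τ) h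
  have h := hv.fintype_card_le_finrank
  rwa [Fintype.card_perm, Fintype.card_fin] at h

theorem altChar_nine (k : Type*) [Field k] :
    altChar k (fun _ : Fin 9 => 1) = 0 ∨ 362880 ≤ altChar k (fun _ : Fin 9 => 1) := by
  by_cases h : Module.Finite k (comp k (fun _ : Fin 9 => 1))
  · right
    have h1 := factorial_le (d := 8) k
    have h2 : (8 + 1).factorial = 362880 := by decide
    rw [h2] at h1
    unfold altChar
    exact_mod_cast h1
  · left
    unfold altChar
    rw [Module.finrank_of_not_finite h]
    rfl

end Pool.Agent.Zk64.Sh
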