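import Pool.Agent.Zk64.Sh.Defs

/-!
# Multiplicities of the trivial and of the adjoint module in the powers of the adjoint module
-/

set_option autoImplicit false
set_option linter.all false

namespace Pool.Agent.Zk64.Sh

open Finset

/-- sparse Laurent polynomials -/
abbrev T3 := ℤ × ℤ × ℤ

/-- the value of a list -/
noncomputable def toL (l : List T3) : Lat :=
  (l.map fun t => (AddMonoidAlgebra.single (t.1, t.2.1) t.2.2 : Lat)).sum

/-- merging two lists -/
def mg : ℕ → List T3 → List T3 → List T3
  | 0, l, r => l ++ r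
  | _ + 1, [], r => r
  | _ + 1, a :: l, [] => a :: l
  | n + 1, a :: l, b :: r =>
    if a.1 = b.1 then
      if a.2.1 = b.2.1 then (a.1, a.2.1, a.2.2 + b.2.2) :: mg n l r
      else if a.2.1 < b.2.1 then a :: mg n l (b :: r) else b :: mg n (a :: l) r
    else if a.1 < b.1 then a :: mg n l (b :: r) else b :: mg n (a :: l) r

/-- shift -/
def sh (m n : ℤ) (l : List T3) : List T3 := l.map fun t => (m + t.1, n + t.2.1, t.2.2)

/-- double -/
def db (l : List T3) : List T3 := l.map fun t => (t.1, t.2.1, 2 * t.2.2)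

/-- multiplication by `adj` -/
def ma (l : List T3) : List T3 :=
  mg 2000 (mg 2000 (mg 2000 (sh (-1) (-1) l) (sh (-1) 0 l)) (mg 2000 (sh 0 (-1) l) (db l)))
    (mg 2000 (sh 0 1 l) (mg 2000 (sh 1 0 l) (sh 1 1 l)))

/-- the coefficient -/
def cf (m n : ℤ) : List T3 → ℤ
  | [] => 0
  | t :: l => if t.1 = m ∧ t.2.1 = n then t.2.2 + cf m n l else cf m n l

lemma toL_cons (t : T3) (l : List T3) :
    toL (t :: l) = AddMonoidAlgebra.single (t.1, t.2.1) t.2.2 + toL l := by
  simp [toL]

lemma toL_nil : toL [] = 0 := by simp [toL]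

lemma toL_append (l r : List T3) : toL (l ++ r) = toL l + toL r := by simp [toL]

lemma toL_mg (n : ℕ) (l r : List T3) : toL (mg n l r) = toL l + toL r := by
  induction n generalizing l r with
  | zero => exact toL_append l r
  | succ n ih =>
    match l, r with
    | [], r => simp [mg, toL_nil]
    | a :: l, [] => simp [mg, toL_nil]
    | a :: l, b :: r =>
      rw [mg]
      split_ifs with h1 h2 h3 h4
      · rw [toL_cons, ih, toL_cons, toL_cons]
        simp only [AddMonoidAlgebra.single_add]
        rw [h1, h2]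
        abel
      · rw [toL_cons, ih, toL_cons, toL_cons]
        abel
      · rw [toL_cons, ih, toL_cons, toL_cons]
        abel
      · rw [toL_cons, ih, toL_cons, toL_cons]
        abel
      · rw [toL_cons, ih, toL_cons, toL_cons]
        abel

lemma toL_sh (m n : ℤ) (l : List T3) : toL (sh m n l) = ex m n * toL l := by
  induction l with
  | nil => simp [sh, toL_nil]
  | cons t l ih =>
    have h : sh m n (t :: l) = (m + t.1, n + t.2.1, t.2.2) :: sh m n l := rfl
    rw [h, toL_cons, ih, toL_cons, mul_add, ex, AddMonoidAlgebra.single_mul_single, one_mul]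
    rfl

lemma toL_db (l : List T3) : toL (db l) = 2 * toL l := by
  induction l with
  | nil => simp [db, toL_nil]
  | cons t l ih =>
    have h : db (t :: l) = (t.1, t.2.1, 2 * t.2.2) :: db l := rfl
    rw [h, toL_cons, ih, toL_cons, mul_add, two_mul t.2.2, AddMonoidAlgebra.single_add, ← two_mul]

lemma toL_ma (l : List T3) : toL (ma l) = adj * toL l := by
  simp only [ma, toL_mg, toL_sh, toL_db, adj]
  ring

lemma coeff_toL (m n : ℤ) (l : List T3) : (toL l).coeff (m, n) = cf m n l := by
  induction l with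
  | nil => simp [toL_nil, cf]
  | cons t l ih =>
    rw [toL_cons, cf, AddMonoidAlgebra.coeff_add, Finsupp.add_apply, ih,
      AddMonoidAlgebra.coeff_single, Finsupp.single_apply]
    simp only [Prod.mk.injEq]
    split_ifs <;> simp

/-- the Weyl denominator -/
def wl : List T3 := [(-2, -2, -1), (-2, -1, 1), (-1, -2, 1), (-1, 0, -1), (0, -1, -1), (0, 0, 1)]

lemma toL_wl : toL wl = weyl := by
  simp only [wl, toL_cons, toL_nil, weyl, ex, sub_mul, mul_sub, one_mul, mul_one,
    AddMonoidAlgebra.single_mul_single]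
  norm_num
  simp only [AddMonoidAlgebra.one_def, AddMonoidAlgebra.single_neg,
    show ((0 : ℤ), (0 : ℤ)) = 0 from rfl]
  abel

/-- powers -/
def pw : ℕ → List T3 → List (ℤ × ℤ)
  | 0, _ => []
  | n + 1, l => (cf 0 0 l, cf 1 1 l) :: pw n (ma l)

lemma pw_get (N : ℕ) (l : List T3) (j : ℕ) (hj : j < N) :
    (pw N l)[j]? = some ((adj ^ j * toL l).coeff (0, 0), (adj ^ j * toL l).coeff (1, 1)) := by
  induction N generalizing l j with
  | zero => omega
  | succ N ih =>
    cases j with
    | zero => simp [pw, coeff_toL]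
    | succ j =>
      rw [pw, List.getElem?_cons_succ, ih (ma l) j (by omega), toL_ma, pow_succ]
      simp only [mul_assoc]

lemma pw_eq : pw 10 wl = [(1, 0), (0, 1), (1, 2), (2, 8), (8, 32), (32, 145), (145, 702),
    (702, 3598), (3598, 19280), (19280, 107160)] := by
  decide +kernel

theorem mult_pow (j : ℕ) (hj : j < 10) :
    (pw 10 wl)[j]? = some (mult 0 0 (adj ^ j), mult 1 1 (adj ^ j)) := by
  rw [pw_get 10 wl j hj, toL_wl]
  rfl

/-- the multiplicities -/
def cc (j : ℕ) : ℤ := ([1, 0, 1, 2, 8, 32, 145, 702, 3598, 19280, 107160] : List ℤ).getD j 0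

theorem mult_zero (j : ℕ) (hj : j < 10) : mult 0 0 (adj ^ j) = cc j := by
  have h := mult_pow j hj
  rw [pw_eq] at h
  interval_cases j <;> simpa [cc] using (congrArg Prod.fst (Option.some.inj h)).symm

theorem mult_one (j : ℕ) (hj : j < 10) : mult 1 1 (adj ^ j) = cc (j + 1) := by
  have h := mult_pow j hj
  rw [pw_eq] at h
  interval_cases j <;> simpa [cc] using (congrArg Prod.snd (Option.some.inj h)).symm

end Pool.Agent.Zk64.Sh
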