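import Pool.Agent.Zk64.Sh.Num

/-!
# The multilinear part of `a(V)` up to degree nine
-/

set_option autoImplicit false
set_option linter.all false

namespace Pool.Agent.Zk64.Sh

open Finset

variable {d : ℕ}

/-- indicator -/
def ind (S : Finset (Fin d)) : Fin d → ℕ := fun i => if i ∈ S then 1 else 0

lemma deg_ind (S : Finset (Fin d)) : deg (ind S) = S.card := by simp [deg, ind]

lemma ind_sub (S B : Finset (Fin d)) : ind S - ind B = ind (S \ B) := by
  funext i
  simp only [ind, Pi.sub_apply, mem_sdiff]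
  by_cases h1 : i ∈ S <;> by_cases h2 : i ∈ B <;> simp [h1, h2]

lemma ind_empty : ind (∅ : Finset (Fin d)) = 0 := by
  funext i
  simp [ind]

lemma sum_Icc_ind (S : Finset (Fin d)) (f : (Fin d → ℕ) → Lat) :
    ∑ δ ∈ Icc 0 (ind S), f δ = ∑ B ∈ S.powerset, f (ind B) := by
  symm
  refine Finset.sum_nbij' ind (fun δ => univ.filter fun i => δ i = 1) ?_ ?_ ?_ ?_ ?_
  · intro B hB
    rw [mem_powerset] at hB
    rw [mem_Icc]
    refine ⟨fun i => Nat.zero_le _, fun i => ?_⟩
    simp only [ind]
    split_ifs with h1 h2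
    · exact le_rfl
    · exact absurd (hB h1) h2
    · exact Nat.zero_le _
    · exact le_rfl
  · intro δ hδ
    rw [mem_Icc] at hδ
    rw [mem_powerset]
    intro i hi
    simp only [mem_filter, mem_univ, true_and] at hi
    have h := hδ.2 i
    simp only [ind] at h
    by_contra h1
    rw [if_neg h1, hi] at h
    omega
  · intro B _
    ext i
    simp [ind]
  · intro δ hδ
    rw [mem_Icc] at hδ
    funext i
    have h := hδ.2 i
    simp only [ind] at h ⊢
    simp only [mem_filter, mem_univ, true_and]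
    split_ifs at h with h1 <;> split_ifs with h2 <;> omega
  · intro B _
    rfl

lemma adams_one (x : Lat) : adams 1 x = x := by
  have h : (fun w : ℤ × ℤ => 1 • w) = id := by
    funext w
    simp
  rw [adams, h]
  apply AddMonoidAlgebra.ext
  exact Finsupp.mapDomain_id

lemma newton_ind (X : (Fin d → ℕ) → Lat) (B : Finset (Fin d)) :
    newton X (ind B) = B.card • X (ind B) := by
  unfold newton
  rw [deg_ind]
  rcases B.eq_empty_or_nonempty with rfl | ⟨i, hi⟩
  · simp
  · rw [Finset.sum_eq_single_of_mem 1 (by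
      rw [mem_Icc]
      exact ⟨le_rfl, card_pos.2 ⟨i, hi⟩⟩)]
    · rw [if_pos fun j => one_dvd _]
      simp only [Nat.div_one]
      rw [adams_one]
      exact congrArg (· • X (ind B)) (deg_ind B)
    · intro k hk hk1
      rw [if_neg]
      intro h
      have h1 := h i
      simp only [ind, if_pos hi, Nat.dvd_one] at h1
      exact hk1 h1

lemma mult_add (m n : ℤ) (x y : Lat) : mult m n (x + y) = mult m n x + mult m n y := by
  simp [mult, add_mul]

lemma mult_neg (m n : ℤ) (x : Lat) : mult m n (-x) = - mult m n x := by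
  simp [mult, neg_mul]

lemma mult_zsmul (m n : ℤ) (c : ℤ) (x : Lat) : mult m n (c • x) = c * mult m n x := by
  rw [mult, mult, smul_mul_assoc]
  rfl

lemma nsmul_cancel {n : ℕ} (hn : n ≠ 0) {x y : Lat} (h : n • x = n • y) : x = y := by
  apply AddMonoidAlgebra.ext
  ext w
  have h1 : (n • x).coeff w = (n • y).coeff w := by rw [h]
  rw [AddMonoidAlgebra.coeff_smul_apply, AddMonoidAlgebra.coeff_smul_apply, nsmul_eq_mul,
    nsmul_eq_mul] at h1
  exact mul_left_cancel₀ (by exact_mod_cast hn) h1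

lemma mult_zero' (m n : ℤ) : mult m n 0 = 0 := by simp [mult]

/-- polynomials in `adj` -/
noncomputable def pe : ℕ → List ℤ → Lat
  | _, [] => 0
  | j, c :: l => c • adj ^ j + pe (j + 1) l

/-- the value of a linear functional -/
def dot (s : ℕ) : ℕ → List ℤ → ℤ
  | _, [] => 0
  | j, c :: l => c * cc (s + j) + dot s (j + 1) l

lemma mult_pe0 (l : List ℤ) (j : ℕ) (h : j + l.length ≤ 10) : mult 0 0 (pe j l) = dot 0 j l := by
  induction l generalizing j with
  | nil => simp [pe, dot, mult_zero']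
  | cons c l ih =>
    rw [List.length_cons] at h
    rw [pe, dot, mult_add, mult_zsmul, ih (j + 1) (by omega), mult_zero j (by omega), zero_add]

lemma mult_pe1 (l : List ℤ) (j : ℕ) (h : j + l.length ≤ 10) : mult 1 1 (pe j l) = dot 1 j l := by
  induction l generalizing j with
  | nil => simp [pe, dot, mult_zero']
  | cons c l ih =>
    rw [List.length_cons] at h
    rw [pe, dot, mult_add, mult_zsmul, ih (j + 1) (by omega), mult_one j (by omega), add_comm 1 j]

/-- the numbers `a` -/
def An : ℕ → ℤ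
  | 0 => 0
  | 1 => 1
  | 2 => 2
  | 3 => 7
  | 4 => 32
  | 5 => 175
  | 6 => 1080
  | 7 => 7196
  | 8 => 49616
  | 9 => 336364
  | _ => 0

/-- the numbers `b` -/
def Bn : ℕ → ℤ
  | 0 => 0
  | 1 => 0
  | 2 => 1
  | 3 => 4
  | 4 => 21
  | 5 => 128
  | 6 => 875
  | 7 => 6480
  | 8 => 50372
  | 9 => 396928
  | _ => 0

/-- the coefficients of `Φ` -/
def Pn : ℕ → List ℤ
  | 0 => [1]
  | 1 => [0, -1]
  | 2 => [-1, -2, 1]
  | 3 => [-4, -4, 6, -1]
  | 4 => [-18, -4, 34, -12, 1]
  | 5 => [-88, 65, 200, -120, 20, -1]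
  | 6 => [-415, 1028, 1150, -1180, 305, -30, 1]
  | 7 => [-1272, 11970, 5222, -11725, 4340, -644, 42, -1]
  | 8 => [9450, 128056, -6300, -116592, 60900, -12376, 1204, -56, 1]
  | 9 => [301936, 1287842, -732576, -1118320, 856632, -228522, 29904, -2064, 72, -1]
  | _ => []

/-- the auxiliary polynomials -/
def Qn : ℕ → List ℤ
  | 0 => [0]
  | 1 => []
  | 2 => [0, 0, -1]
  | 3 => [0, -3, -6, 1]
  | 4 => [-3, -28, -34, 12, -1]
  | 5 => [-40, -240, -200, 120, -20, 1]
  | 6 => [-460, -2108, -1150, 1180, -305, 30, -1]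
  | 7 => [-5208, -19166, -5222, 11725, -4340, 644, -42, 1]
  | 8 => [-59822, -177672, 6300, 116592, -60900, 12376, -1204, 56, -1]
  | 9 => [-698864, -1624206, 732576, 1118320, -856632, 228522, -29904, 2064, -72, 1]
  | _ => []

/-- the induction hypothesis -/
def Hyp (a b : (Fin d → ℕ) → ℤ) (Φ : (Fin d → ℕ) → Lat) (n : ℕ) : Prop :=
  ∀ S : Finset (Fin d), S.card = n →
    a (ind S) = An n ∧ b (ind S) = Bn n ∧ Φ (ind S) = pe 0 (Pn n)

theorem step {a b : (Fin d → ℕ) → ℤ} {Φ : (Fin d → ℕ) → Lat}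
    (hL : IsLambda (fun α => a α • adj + b α • (1 : Lat)) Φ)
    (h0 : ∀ β, mult 0 0 (Φ β) = if β = 0 then 1 else 0)
    (h1 : ∀ β, mult 1 1 (Φ β) = - if deg β = 1 then 1 else 0)
    (n : ℕ) (hn : 1 ≤ n) (hprev : ∀ m < n, Hyp a b Φ m)
    (hQ : n • pe 0 (Qn n) = ∑ k ∈ range n, n.choose k •
      (pe 0 (Pn (n - k)) * (k • (An k • adj + Bn k • (1 : Lat)))))
    (hlen : (Qn n).length ≤ 10)
    (hA : An n = (if n = 1 then 1 else 0) - dot 1 0 (Qn n)) (hB : Bn n = - dot 0 0 (Qn n))
    (hP : pe 0 (Pn n) = -(pe 0 (Qn n) + (An n • adj + Bn n • (1 : Lat)))) :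
    Hyp a b Φ n := by
  intro S hS
  have key := hL.eq (ind S)
  rw [deg_ind, sum_Icc_ind, hS] at key
  have hsum : ∑ B ∈ S.powerset, Φ (ind S - ind B) *
      newton (fun α => a α • adj + b α • (1 : Lat)) (ind B) =
      n • pe 0 (Qn n) + n • (a (ind S) • adj + b (ind S) • (1 : Lat)) := by
    rw [← Finset.sum_erase_add _ _ (mem_powerset_self S)]
    congr 1
    · rw [hQ]
      have h2 : ∑ B ∈ S.powerset.erase S, Φ (ind S - ind B) *
          newton (fun α => a α • adj + b α • (1 : Lat)) (ind B) =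
          ∑ B ∈ S.powerset, (fun m => if m < n then pe 0 (Pn (n - m)) *
            (m • (An m • adj + Bn m • (1 : Lat))) else 0) B.card := by
        rw [← Finset.sum_erase_add _ _ (mem_powerset_self S)]
        simp only [hS, lt_irrefl, if_false, add_zero]
        refine Finset.sum_congr rfl fun B hB => ?_
        rw [mem_erase, mem_powerset] at hB
        have hlt : B.card < n := hS ▸ card_lt_card (hB.2.ssubset_of_ne hB.1)
        have hc : (S \ B).card = n - B.card := by rw [card_sdiff_of_subset hB.2, hS]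
        rw [if_pos hlt, newton_ind, ind_sub]
        rcases Nat.eq_zero_or_pos B.card with h3 | h3
        · rw [h3]
          simp
        · rw [(hprev (n - B.card) (by omega) (S \ B) hc).2.2,
            (hprev B.card hlt B rfl).1, (hprev B.card hlt B rfl).2.1]
      rw [h2, Finset.sum_powerset_apply_card (fun m => if m < n then pe 0 (Pn (n - m)) *
            (m • (An m • adj + Bn m • (1 : Lat))) else 0), hS, Finset.sum_range_succ]
      simp only [lt_irrefl, if_false, smul_zero, add_zero]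
      refine Finset.sum_congr rfl fun m hm => ?_
      rw [if_pos (mem_range.1 hm)]
    · rw [newton_ind, hS, ind_sub, sdiff_self, Finset.bot_eq_empty, ind_empty, hL.zero, one_mul]
  rw [hsum, ← smul_add, ← smul_neg] at key
  have hn0 : n ≠ 0 := by omega
  have hΦ : Φ (ind S) = -(pe 0 (Qn n) + (a (ind S) • adj + b (ind S) • (1 : Lat))) :=
    nsmul_cancel hn0 key
  have hne : ind S ≠ 0 := by
    intro h
    have h3 := deg_ind S
    rw [h, hS] at h3
    simp [deg] at h3
    omega
  have e0 := h0 (ind S)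
  have e1 := h1 (ind S)
  have a0 : mult 0 0 adj = 0 := by simpa [cc] using mult_zero 1 (by omega)
  have a1 : mult 1 1 adj = 1 := by simpa [cc] using mult_one 1 (by omega)
  have b0 : mult 0 0 1 = 1 := by simpa [cc] using mult_zero 0 (by omega)
  have b1 : mult 1 1 1 = 0 := by simpa [cc] using mult_one 0 (by omega)
  rw [if_neg hne, hΦ, mult_neg, mult_add, mult_add, mult_zsmul, mult_zsmul, a0, b0,
    mult_pe0 _ 0 (by omega)] at e0
  rw [deg_ind, hS, hΦ, mult_neg, mult_add, mult_add, mult_zsmul, mult_zsmul, a1, b1,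
    mult_pe1 _ 0 (by omega)] at e1
  have hbS : b (ind S) = Bn n := by rw [hB]; linarith
  have haS : a (ind S) = An n := by rw [hA]; linarith
  refine ⟨haS, hbS, ?_⟩
  rw [hΦ, haS, hbS, hP]

theorem hyp_all {a b : (Fin d → ℕ) → ℤ} {Φ : (Fin d → ℕ) → Lat} (ha : a 0 = 0) (hb : b 0 = 0)
    (hL : IsLambda (fun α => a α • adj + b α • (1 : Lat)) Φ)
    (h0 : ∀ β, mult 0 0 (Φ β) = if β = 0 then 1 else 0)
    (h1 : ∀ β, mult 1 1 (Φ β) = - if deg β = 1 then 1 else 0) (n : ℕ) (hn : n ≤ 9) :
    Hyp a b Φ n := by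
  induction n using Nat.strong_induction_on with
  | _ n ih =>
    rcases Nat.eq_zero_or_pos n with rfl | hpos
    · intro S hS
      rw [card_eq_zero] at hS
      rw [hS, ind_empty, ha, hb, hL.zero]
      simp [An, Bn, Pn, pe]
    · refine step hL h0 h1 n hpos (fun m hm => ih m hm (by omega)) ?_ ?_ ?_ ?_ ?_
      · interval_cases n <;>
          simp only [Finset.sum_range_succ, Finset.sum_range_zero, Nat.choose, Nat.reduceAdd,
            Nat.reduceSub, Qn, Pn, An, Bn, pe, zsmul_eq_mul, nsmul_eq_mul] <;>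
          push_cast <;> ring
      · interval_cases n <;> decide
      · interval_cases n <;> decide
      · interval_cases n <;> decide
      · interval_cases n <;>
          simp only [Qn, Pn, An, Bn, pe, zsmul_eq_mul] <;>
          push_cast <;> ring

/-- **The multilinear coefficient of `a(V)` of degree nine.** -/
theorem solves_nine {a b : (Fin 9 → ℕ) → ℤ} (h : Solves a b) : a (fun _ => 1) = 336364 := by
  obtain ⟨Φ, hL, h0, h1⟩ := h.sol
  have h2 := (hyp_all h.a_zero h.b_zero hL h0 h1 9 le_rfl univ (by simp)).1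
  have h3 : ind (univ : Finset (Fin 9)) = fun _ => 1 := by
    funext i
    simp [ind]
  rw [h3] at h2
  exact h2

end Pool.Agent.Zk64.Sh
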